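import Pool.Agent.Q293.BiasD

/-!
# A vanishing bias cannot give linear cover times on regular graphs of growing degree
-/

set_option autoImplicit false

open Finset MeasureTheory Filter Q293.HistWalk Q293.Bias
open scoped ENNReal Topology

namespace Pool.Agent.Results.MP_763ca5_pr.NoLinearCover

lemma exp_le_one_sub {x : ℝ} (h0 : 0 ≤ x) (h1 : x ≤ 1 / 2) : Real.exp (-(2 * x)) ≤ 1 - x := by
  have h2 : 1 + 2 * x ≤ Real.exp (2 * x) := by linarith [Real.add_one_le_exp (2 * x)]
  rw [Real.exp_neg]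
  calc (Real.exp (2 * x))⁻¹ ≤ (1 + 2 * x)⁻¹ := inv_anti₀ (by linarith) h2
    _ ≤ 1 - x := by
      rw [inv_le_iff_one_le_mul₀ (by linarith)]
      nlinarith

lemma eta_le {q : ℝ} (hq : 0 ≤ q) (d : ℕ) :
    (2 : ℝ) ^ (-(2 * q * d)) * (q + 1) ^ d ≤ Real.exp (-(3 / 10 * q * d)) := by
  have h1 : (q + 1) ^ d ≤ Real.exp (q * d) := by
    calc (q + 1) ^ d ≤ (Real.exp q) ^ d :=
          pow_le_pow_left₀ (by linarith) (Real.add_one_le_exp q) d
      _ = Real.exp (q * d) := by rw [← Real.exp_nat_mul, mul_comm]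
  have h2 : (2 : ℝ) ^ (-(2 * q * d)) = Real.exp (-(2 * q * d) * Real.log 2) := by
    rw [Real.rpow_def_of_pos (by norm_num)]
    congr 1
    ring
  rw [h2]
  have hd : (0 : ℝ) ≤ d := Nat.cast_nonneg d
  have hlog := Real.log_two_gt_d9
  have hqd : 0 ≤ q * d := mul_nonneg hq hd
  calc Real.exp (-(2 * q * d) * Real.log 2) * (q + 1) ^ d
      ≤ Real.exp (-(2 * q * d) * Real.log 2) * Real.exp (q * d) :=
        mul_le_mul_of_nonneg_left h1 (Real.exp_pos _).le
    _ = Real.exp (-(2 * q * d) * Real.log 2 + q * d) := by rw [Real.exp_add]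
    _ ≤ Real.exp (-(3 / 10 * q * d)) := by
        apply Real.exp_le_exp.2
        nlinarith

lemma small_eventually (a δ : ℝ) (ha : 0 < a) (hδ : 0 < δ) :
    ∃ d0 : ℕ, 2 ≤ d0 ∧ ∀ d : ℕ, d0 ≤ d → (d : ℝ) * Real.exp (-(a * d)) < δ := by
  have h1 : Tendsto (fun x : ℝ => x ^ 1 * Real.exp (-x)) atTop (𝓝 0) :=
    Real.tendsto_pow_mul_exp_neg_atTop_nhds_zero 1
  have h2 : Tendsto (fun d : ℕ => a * (d : ℝ)) atTop atTop :=
    Tendsto.const_mul_atTop ha tendsto_natCast_atTop_atTop
  have h3 := (h1.comp h2).eventually (gt_mem_nhds (show (0 : ℝ) < a * δ by positivity))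
  obtain ⟨d0, hd0⟩ := eventually_atTop.1 h3
  refine ⟨max d0 2, le_max_right _ _, fun d hd => ?_⟩
  have h4 := hd0 d ((le_max_left _ _).trans hd)
  simp only [Function.comp, pow_one] at h4
  have h5 : a * (d * Real.exp (-(a * d))) < a * δ := by
    calc a * (d * Real.exp (-(a * d))) = a * d * Real.exp (-(a * d)) := by ring
      _ < a * δ := h4
  exact lt_of_mul_lt_mul_left h5 ha.le

/-- The numerical endgame. -/
lemma endgame {K d n q0 qs C ε p c E : ℝ} (hC : 0 < C) (hK8 : 8 * C + 1 ≤ K) (hd : 2 ≤ d)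
    (hn3 : 3 ≤ n) (hqs0 : 0 < qs) (hq0ge : qs ≤ q0) (hε0 : 0 ≤ ε) (hp12 : p ≤ 1 / 2)
    (hεC : 2 * ε * C ≤ qs / 32) (hc : c = 2 * q0 * d) (hE : d * E < qs / 16)
    (hfinal : K * d * ((n - 1) * q0)
      ≤ 0 + (K * d * d * (n * E) + (c + K * d * (ε / (1 - p))) * (C * n))) : False := by
  have hq0pos : 0 < q0 := hqs0.trans_le hq0ge
  have hKp : 0 < K := by linarith
  have hεp : ε / (1 - p) ≤ 2 * ε := by
    rw [div_le_iff₀ (by linarith)]
    nlinarith
  have hdn : 0 < d * n := by positivity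
  have h1 : K * q0 / 2 ≤ K * (d * E) + 2 * q0 * C + K * (2 * ε) * C := by
    have h2 : d * n * (K * q0 / 2) ≤ d * n * (K * (d * E) + 2 * q0 * C + K * (2 * ε) * C) := by
      calc d * n * (K * q0 / 2) = (K * d * q0) * (n / 2) := by ring
        _ ≤ (K * d * q0) * (n - 1) := by
            apply mul_le_mul_of_nonneg_left (by linarith) (by positivity)
        _ = K * d * ((n - 1) * q0) := by ring
        _ ≤ K * d * d * (n * E) + (c + K * d * (ε / (1 - p))) * (C * n) := by linarith
        _ ≤ K * d * d * (n * E) + (c + K * d * (2 * ε)) * (C * n) := by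
            have h4 : K * d * (ε / (1 - p)) ≤ K * d * (2 * ε) :=
              mul_le_mul_of_nonneg_left hεp (by positivity)
            have h5 : 0 ≤ C * n := by positivity
            have h6 := mul_le_mul_of_nonneg_right
              (show c + K * d * (ε / (1 - p)) ≤ c + K * d * (2 * ε) by linarith) h5
            linarith
        _ = d * n * (K * (d * E) + 2 * q0 * C + K * (2 * ε) * C) := by
            rw [hc]; ring
    exact le_of_mul_le_mul_left h2 hdn
  have h2 : 2 * q0 * C ≤ K * q0 / 4 := by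
    have h3 : 8 * C ≤ K := by linarith
    have h4 := mul_le_mul_of_nonneg_right h3 hq0pos.le
    linarith
  have h3 : K * q0 / 4 ≤ K * (d * E + 2 * ε * C) := by linarith
  have h4 : q0 / 4 ≤ d * E + 2 * ε * C := by
    have h5 : K * (q0 / 4) ≤ K * (d * E + 2 * ε * C) := by linarith
    exact le_of_mul_le_mul_left h5 hKp
  linarith

/-- Uniform lower bound: for every constant `C`, if the degree is large and the bias is small then
every strategy, from every starting vertex, has expected cover time larger than `C` times the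
number of vertices. -/
theorem uniform_bound (C : ℝ) (hC : 0 < C) : ∃ d0 : ℕ, ∃ ε0 : ℝ, 0 < ε0 ∧
    ∀ (V : Type) [Fintype V] [DecidableEq V] [MeasurableSpace V] [DiscreteMeasurableSpace V]
      (G : SimpleGraph V) [DecidableRel G.Adj] (d : ℕ) (ε : ℝ), G.IsRegularOfDegree d → d0 ≤ d →
      0 ≤ ε → ε ≤ ε0 → ∀ σ : List V → V, IsStrategy G σ → ∀ v : V,
      ENNReal.ofReal (C * Fintype.card V) < expCover G ε σ v := by
  obtain ⟨K, hK⟩ := exists_nat_ge (8 * C + 1)
  have hK1 : (1 : ℝ) ≤ K := by linarith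
  set qs : ℝ := Real.exp (-(2 * K)) with hqs
  have hqs0 : 0 < qs := Real.exp_pos _
  have hqs1 : qs ≤ 1 := Real.exp_le_one_iff.2 (by linarith)
  obtain ⟨d0, hd02, hd0⟩ := small_eventually (3 / 10 * qs) (qs / 16) (by positivity) (by positivity)
  refine ⟨d0, min 1 (qs / (64 * C)), lt_min one_pos (by positivity), ?_⟩
  intro V _ _ _ _ G _ d ε hreg hd hε0 hε1 σ hσ v
  by_contra hcon
  push Not at hcon
  have hd2 : 2 ≤ d := hd02.trans hd
  have hdpos : 0 < d := by omega
  have hd2' : (2 : ℝ) ≤ d := by exact_mod_cast hd2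
  have hε1' : ε ≤ 1 := hε1.trans (min_le_left _ _)
  have hε2 : ε ≤ qs / (64 * C) := hε1.trans (min_le_right _ _)
  set n : ℝ := (Fintype.card V : ℝ) with hn
  set p : ℝ := (1 - ε) / d with hp
  have hp0 : 0 ≤ p := div_nonneg (by linarith) (by linarith)
  have hp1d : p ≤ 1 / d := by
    rw [hp]; apply div_le_div_of_nonneg_right _ (by linarith); linarith
  have h1d : (1 : ℝ) / d ≤ 1 / 2 := by
    apply one_div_le_one_div_of_le (by norm_num) hd2'
  have hp12 : p ≤ 1 / 2 := hp1d.trans h1d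
  have hplt : p < 1 := by linarith
  set m : ℕ := K * d with hm
  have hKpos : 0 < K := by
    have : (0 : ℝ) < K := by linarith
    exact_mod_cast this
  have hmpos : 0 < m := Nat.mul_pos hKpos hdpos
  set q0 : ℝ := (1 - p) ^ m with hq0
  have hq0pos : 0 < q0 := pow_pos (by linarith) _
  have hq0ge : qs ≤ q0 := by
    have h1 : Real.exp (-(2 * (1 / (d : ℝ)))) ≤ 1 - p :=
      (exp_le_one_sub (by positivity) h1d).trans (by linarith)
    calc qs = (Real.exp (-(2 * (1 / (d : ℝ))))) ^ m := by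
          rw [← Real.exp_nat_mul, hqs, hm]
          congr 1
          push_cast
          field_simp
      _ ≤ q0 := pow_le_pow_left₀ (Real.exp_pos _).le h1 m
  -- the number of vertices
  have hn3 : (3 : ℝ) ≤ n := by
    have h1 : G.degree v < Fintype.card V := G.degree_lt_card_verts v
    rw [hreg v] at h1
    have h3 : 3 ≤ Fintype.card V := by omega
    rw [hn]
    exact_mod_cast h3
  -- sums of the survival probabilities
  set a : ℕ → ℝ := fun s => (stp G ε σ)^[s] unc1 [v] with ha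
  have ha0 : ∀ s, 0 ≤ a s := by
    intro s
    have h2 : ∀ s, ∀ l, 0 ≤ (stp G ε σ)^[s] unc1 l := by
      intro s
      induction s with
      | zero => intro l; exact unc1_nonneg l
      | succ s ih =>
        intro l
        rw [Function.iterate_succ_apply']
        exact stp_nonneg hε0 hε1' ih l
    exact h2 s [v]
  have hsum : ∀ t, ∑ s ∈ Finset.range t, a s ≤ C * n := by
    intro t
    have h1 := (sum_le_expCover hreg hdpos hε0 hε1' v t).trans hcon
    rwa [ENNReal.ofReal_le_ofReal_iff (by positivity)] at h1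
  have hlim : Tendsto a atTop (𝓝 0) := by
    have h1 : Summable a := summable_of_sum_range_le ha0 hsum
    exact h1.tendsto_atTop_zero
  set c : ℝ := 2 * q0 * d with hc
  have hc0 : 0 ≤ c := by positivity
  have hineq : ∀ t, (m : ℝ) * ((n - 1) * q0)
      ≤ m * n * a t + (m * d * (n * ((2 : ℝ) ^ (-c) * (q0 + 1) ^ d))
        + (c + m * (ε / (1 - p))) * (C * n)) := by
    intro t
    have h1 := main_ineq (m := m) hreg hdpos hε0 hε1' hσ hp0 hplt hp hmpos c hc0 v t
    have h2 : 0 ≤ c + m * (ε / (1 - p)) := by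
      have : 0 ≤ ε / (1 - p) := div_nonneg hε0 (by linarith)
      positivity
    have h3 := mul_le_mul_of_nonneg_left (hsum t) h2
    linarith
  have hfinal : (m : ℝ) * ((n - 1) * q0)
      ≤ 0 + (m * d * (n * ((2 : ℝ) ^ (-c) * (q0 + 1) ^ d))
        + (c + m * (ε / (1 - p))) * (C * n)) := by
    have h1 : Tendsto (fun t => m * n * a t + (m * d * (n * ((2 : ℝ) ^ (-c) * (q0 + 1) ^ d))
        + (c + m * (ε / (1 - p))) * (C * n))) atTop (𝓝 (0 + (m * d * (n * ((2 : ℝ) ^ (-c) * (q0 + 1) ^ d))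
        + (c + m * (ε / (1 - p))) * (C * n)))) := by
      apply Tendsto.add_const
      have := hlim.const_mul ((m : ℝ) * n)
      rwa [mul_zero] at this
    exact ge_of_tendsto' h1 hineq
  -- numerical contradiction
  have hη : (2 : ℝ) ^ (-c) * (q0 + 1) ^ d ≤ Real.exp (-(3 / 10 * qs * d)) := by
    refine (eta_le hq0pos.le d).trans ?_
    apply Real.exp_le_exp.2
    have : (0 : ℝ) ≤ d := by linarith
    nlinarith [mul_le_mul_of_nonneg_right hq0ge this]
  have hη2 : (d : ℝ) * ((2 : ℝ) ^ (-c) * (q0 + 1) ^ d) < qs / 16 := by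
    have h1 := hd0 d hd
    have h2 := mul_le_mul_of_nonneg_left hη (show (0 : ℝ) ≤ d by linarith)
    linarith
  have hεC : 2 * ε * C ≤ qs / 32 := by
    have h1 : ε * (64 * C) ≤ qs := by
      rwa [le_div_iff₀ (by positivity)] at hε2
    linarith
  have hmn : (m : ℝ) = K * d := by rw [hm]; push_cast; ring
  rw [hmn] at hfinal
  exact endgame (E := (2 : ℝ) ^ (-c) * (q0 + 1) ^ d) hC hK hd2' hn3 hqs0 hq0ge hε0 hp12 hεC hc hη2
    hfinal

/-- **MP_763ca5_pr, Q1 (the negated form holds, in a strong sense).**  Let `G k` be `d k`-regular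
finite graphs with `d k → ∞` and let `ε k → 0`.  Then the ratio of the biased cover time to the
number of vertices tends to infinity; moreover the lower bound holds for every starting vertex and
is uniform in the graph. -/
theorem result :
    (∀ C : ℝ, 0 < C → ∃ d0 : ℕ, ∃ ε0 : ℝ, 0 < ε0 ∧
      ∀ (V : Type) [Fintype V] [DecidableEq V] [MeasurableSpace V] [DiscreteMeasurableSpace V]
        (G : SimpleGraph V) [DecidableRel G.Adj] (d : ℕ) (ε : ℝ), G.IsRegularOfDegree d → d0 ≤ d →
        0 ≤ ε → ε ≤ ε0 → ∀ σ : List V → V, IsStrategy G σ → ∀ v : V,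
        ENNReal.ofReal (C * Fintype.card V) < expCover G ε σ v) ∧
    (∀ (V : ℕ → Type) [∀ k, Fintype (V k)] [∀ k, DecidableEq (V k)] [∀ k, Nonempty (V k)]
      [∀ k, MeasurableSpace (V k)] [∀ k, DiscreteMeasurableSpace (V k)]
      (G : ∀ k, SimpleGraph (V k)) [∀ k, DecidableRel (G k).Adj] (d : ℕ → ℕ) (ε : ℕ → ℝ),
      (∀ k, (G k).IsRegularOfDegree (d k)) → Tendsto d atTop atTop → (∀ k, 0 ≤ ε k) →
      Tendsto ε atTop (𝓝 0) →
      ∀ C : ℝ, ∀ᶠ k in atTop,
        ENNReal.ofReal (C * Fintype.card (V k)) < tcov (G k) (ε k)) := by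
  refine ⟨uniform_bound, ?_⟩
  intro V _ _ _ _ _ G _ d ε hreg hd hε0 hε C
  obtain ⟨d0, ε0, hε0', h⟩ := uniform_bound (max C 0 + 2) (by positivity)
  filter_upwards [hd.eventually_ge_atTop d0, hε.eventually (ge_mem_nhds hε0')] with k hk1 hk2
  obtain ⟨v⟩ := (inferInstance : Nonempty (V k))
  have hcard : (0 : ℝ) < Fintype.card (V k) := by
    have : 0 < Fintype.card (V k) := Fintype.card_pos
    exact_mod_cast this
  have h1 : ENNReal.ofReal (C * Fintype.card (V k))
      < ENNReal.ofReal ((max C 0 + 2) * Fintype.card (V k)) := by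
    rw [ENNReal.ofReal_lt_ofReal_iff (by positivity)]
    apply mul_lt_mul_of_pos_right _ hcard
    have := le_max_left C 0
    linarith
  refine h1.trans_le ?_
  unfold tcov
  refine le_trans ?_ (le_iSup _ v)
  refine le_iInf₂ fun σ hσ => ?_
  exact (h (V k) (G k) (d k) (ε k) (hreg k) hk1 (hε0 k) hk2 σ hσ v).le

end Pool.Agent.Results.MP_763ca5_pr.NoLinearCover
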